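import Mathlib

/-!
The Golod–Shafarevich inequality for finite `p`-groups, with the relation rank in cocycle form.
-/

open Module

namespace Pool.Agent.MP_9b2bac_nt.T.GS

section General
variable {F : Type*} [Field F] {G : Type*} [Group G]
  {V : Type*} {V' : Type*} [AddCommGroup V] [Module F V] [AddCommGroup V'] [Module F V']

/-- the augmentation ideal applied to a subspace -/
def Dv (ρ : Representation F G V) (W : Submodule F V) : Submodule F V :=
  ⨆ g : G, W.map (ρ g - LinearMap.id)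

/-- equivariant linear maps -/
def Eqv (ρ : Representation F G V) (σ : Representation F G V') (f : V →ₗ[F] V') : Prop :=
  ∀ g v, f (ρ g v) = σ g (f v)

theorem mem_Dv (ρ : Representation F G V) {W : Submodule F V} (g : G) {w : V} (hw : w ∈ W) :
    ρ g w - w ∈ Dv ρ W :=
  Submodule.mem_iSup_of_mem g ⟨w, hw, rfl⟩

theorem Dv_le {ρ : Representation F G V} {W U : Submodule F V}
    (h : ∀ g, ∀ w ∈ W, ρ g w - w ∈ U) : Dv ρ W ≤ U :=
  iSup_le fun g => by
    rintro _ ⟨w, hw, rfl⟩
    exact h g w hw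

theorem Dv_mono (ρ : Representation F G V) : Monotone (Dv ρ) := fun _ _ h =>
  Dv_le fun g _ hw => mem_Dv ρ g (h hw)

theorem map_Dv {ρ : Representation F G V} {σ : Representation F G V'} {f : V →ₗ[F] V'}
    (h : Eqv ρ σ f) (W : Submodule F V) : (Dv ρ W).map f = Dv σ (W.map f) := by
  simp only [Dv, Submodule.map_iSup, ← Submodule.map_comp]
  refine iSup_congr fun g => ?_
  congr 1
  ext v
  simp [h g v]

theorem map_iter {ρ : Representation F G V} {σ : Representation F G V'} {f : V →ₗ[F] V'}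
    (h : Eqv ρ σ f) (n : ℕ) (W : Submodule F V) :
    ((Dv ρ)^[n] W).map f = (Dv σ)^[n] (W.map f) := by
  induction n with
  | zero => rfl
  | succ n ih => rw [Function.iterate_succ_apply', Function.iterate_succ_apply', map_Dv h, ih]

theorem Dv_top_inv (ρ : Representation F G V) (g : G) : Dv ρ ⊤ ≤ (Dv ρ ⊤).comap (ρ g) :=
  Dv_le fun h w _ => by
    have h1 := mem_Dv ρ (W := ⊤) (g * h) (w := w) trivial
    have h2 := mem_Dv ρ (W := ⊤) g (w := w) trivial
    have := Submodule.sub_mem _ h1 h2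
    simpa using this

/-- the representation on an invariant subspace -/
def sub (ρ : Representation F G V) (W : Submodule F V) (h : ∀ g, W ≤ W.comap (ρ g)) :
    @Representation F G W _ _ AddCommGroup.toAddCommMonoid _ := ρ.subrepresentation W h

/-- the power of a representation -/
def pw (ι : Type*) (ρ : Representation F G V) : Representation F G (ι → V) where
  toFun g := LinearMap.pi fun i => (ρ g).comp (LinearMap.proj i)
  map_one' := by ext; simp
  map_mul' g h := by ext; simp

@[simp] theorem pw_apply (ι : Type*) (ρ : Representation F G V) (g : G) (v : ι → V) (i : ι) :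
    pw ι ρ g v i = ρ g (v i) := rfl

theorem iter_pw (ι : Type*) [Fintype ι] [DecidableEq ι] (ρ : Representation F G V) (n : ℕ) :
    (Dv (pw ι ρ))^[n] ⊤ = Submodule.pi Set.univ fun _ => (Dv ρ)^[n] ⊤ := by
  apply le_antisymm
  · intro v hv i _
    have h1 : Eqv (pw ι ρ) ρ (LinearMap.proj i) := fun _ _ => rfl
    have h2 := (map_iter h1 n ⊤).le ⟨v, hv, rfl⟩
    exact (Dv_mono ρ).iterate n le_top h2
  · intro v hv
    rw [← Finset.univ_sum_single v]
    refine Submodule.sum_mem _ fun i _ => ?_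
    have h1 : Eqv ρ (pw ι ρ) (LinearMap.single F (fun _ => V) i) := fun g w => by
      ext j
      by_cases hj : j = i
      · subst hj; simp
      · simp [hj]
    have h2 := (map_iter h1 n ⊤).le ⟨v i, hv i trivial, rfl⟩
    exact (Dv_mono _).iterate n le_top h2

theorem finrank_iter_pw [FiniteDimensional F V] (m : ℕ) (ρ : Representation F G V) (n : ℕ) :
    finrank F ((Dv (pw (Fin m) ρ))^[n] ⊤ : Submodule F (Fin m → V)) +
      m * finrank F (V ⧸ (Dv ρ)^[n] ⊤) = m * finrank F V := by
  have h1 := ((Dv (pw (Fin m) ρ))^[n] ⊤).finrank_quotient_add_finrank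
  rw [iter_pw] at h1 ⊢
  rw [(Submodule.quotientPi _).finrank_eq, Module.finrank_pi_fintype,
    Module.finrank_pi_fintype] at h1
  simp only [Finset.sum_const, Finset.card_univ, Fintype.card_fin, smul_eq_mul] at h1
  omega

theorem finrank_map_add [FiniteDimensional F V] (f : V →ₗ[F] V') (W : Submodule F V) :
    finrank F (W.map f) + finrank F (W ⊓ LinearMap.ker f : Submodule F V) = finrank F W := by
  have h1 := (f.domRestrict W).finrank_range_add_finrank_ker
  rw [LinearMap.range_domRestrict, LinearMap.ker_domRestrict] at h1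
  rw [← h1, ← Submodule.finrank_map_subtype_eq W, Submodule.map_comap_subtype]

/-- the regular representation on functions -/
def reg (F : Type*) [Field F] (G : Type*) [Group G] : Representation F G (G → F) where
  toFun g := LinearMap.pi fun x => LinearMap.proj (g⁻¹ * x)
  map_one' := by ext; simp
  map_mul' g h := by ext; simp [mul_assoc]

@[simp] theorem reg_apply (g : G) (f : G → F) (x : G) : reg F G g f x = f (g⁻¹ * x) := rfl

theorem reg_single [DecidableEq G] (g h : G) :
    reg F G g (Pi.single h 1) = Pi.single (g * h) 1 := by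
  ext x
  simp [Pi.single_apply, inv_mul_eq_iff_eq_mul]

theorem sum_shift [Fintype G] {M : Type*} [AddCommMonoid M] (h : G) (u : G → G → M) :
    ∑ g, u (h⁻¹ * g) g = ∑ g, u g (h * g) :=
  (Fintype.sum_equiv (Equiv.mulLeft h) _ _ fun g => by simp).symm

theorem sum_Dv [Fintype G] {f : G → F} (hf : f ∈ Dv (reg F G) ⊤) : ∑ g, f g = 0 := by
  have : Dv (reg F G) ⊤ ≤ LinearMap.ker (∑ g : G, LinearMap.proj (R := F) (φ := fun _ => F) g) :=
    Dv_le fun g w _ => by
      simp [Finset.sum_sub_distrib, sum_shift g fun a _ => w a]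
  simpa using this hf

/-- the equivariant map from the free module with prescribed values on the basis -/
def lift [Fintype G] {ι : Type*} [Fintype ι] (ρ : Representation F G V) (x : ι → V) :
    (ι → G → F) →ₗ[F] V where
  toFun v := ∑ i, ∑ g, v i g • ρ g (x i)
  map_add' v w := by simp [add_smul, Finset.sum_add_distrib]
  map_smul' c v := by simp [Finset.smul_sum, mul_smul]

theorem lift_apply [Fintype G] {ι : Type*} [Fintype ι] (ρ : Representation F G V) (x : ι → V)
    (v : ι → G → F) : lift ρ x v = ∑ i, ∑ g, v i g • ρ g (x i) := rfl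

theorem lift_eqv [Fintype G] {ι : Type*} [Fintype ι] (ρ : Representation F G V) (x : ι → V) :
    Eqv (pw ι (reg F G)) ρ (lift ρ x) := fun h v => by
  simp only [lift_apply, pw_apply, reg_apply, map_sum, map_smul]
  refine Finset.sum_congr rfl fun i _ => ?_
  rw [sum_shift h fun a b => v i a • ρ b (x i)]
  simp

theorem mem_Dv_free [Fintype G] {ι : Type*} [Fintype ι] {v : ι → G → F}
    (hv : ∀ i, ∑ g, v i g = 0) : v ∈ Dv (pw ι (reg F G)) ⊤ := by
  classical
  have h1 := iter_pw ι (reg F G) 1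
  simp only [Function.iterate_one] at h1
  rw [h1]
  intro i _
  have h2 : v i = ∑ g, v i g • (reg F G g (Pi.single 1 1) - Pi.single 1 1) := by
    simp only [reg_single, mul_one, smul_sub, Finset.sum_sub_distrib, ← Finset.sum_smul, hv i,
      zero_smul, sub_zero]
    ext x
    simp [Finset.sum_apply, Pi.single_apply]
  change v i ∈ _
  rw [h2]
  exact Submodule.sum_mem _ fun g _ => Submodule.smul_mem _ _ (mem_Dv _ g trivial)

/-- an invariant functional on the relation module whose cocycle is a coboundary vanishes -/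
theorem coc_zero [Fintype G] [DecidableEq G] {σ : Representation F G V} {π : V →ₗ[F] (G → F)}
    (hπ : Eqv σ (reg F G) π) (hs : ∀ v, ∑ g, π v g = 0) (hK : LinearMap.ker π ≤ Dv σ ⊤)
    {s : G → V} (h1 : ∀ g, π (s g) = Pi.single g 1 - Pi.single 1 1) {Φ : V →ₗ[F] F}
    (hΦ : ∀ g k, π k = 0 → Φ (σ g k) = Φ k) {x : G → F}
    (hx : ∀ g h, Φ (s g + σ g (s h) - s (g * h)) = x g + x h - x (g * h)) {k : V}
    (hk : π k = 0) : Φ k = 0 := by
  let T : (G → F) →ₗ[F] F := ∑ g : G, (x g - Φ (s g)) • LinearMap.proj g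
  have hT : ∀ f, T f = ∑ g, f g * (x g - Φ (s g)) := fun f => by simp [T, mul_comm]
  have h2 : Dv σ ⊤ ≤ LinearMap.ker (Φ + T.comp π) := Dv_le fun h v _ => by
    have h3 : π (v - ∑ g, π v g • s g) = 0 := by
      simp only [map_sub, map_sum, map_smul, h1, smul_sub, Finset.sum_sub_distrib,
        ← Finset.sum_smul, hs v, zero_smul, sub_zero]
      ext y
      simp [Finset.sum_apply, Pi.single_apply]
    have h4 := hΦ h _ h3
    simp only [map_sub, map_sum, map_smul, smul_eq_mul] at h4
    have h5 : ∀ g, Φ (σ h (s g)) = x h + x g - x (h * g) - Φ (s h) + Φ (s (h * g)) := fun g => by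
      have := hx h g
      simp only [map_sub, map_add] at this
      linear_combination this
    simp only [LinearMap.mem_ker, LinearMap.add_apply, LinearMap.comp_apply, map_sub, hπ h v, hT,
      reg_apply]
    rw [sum_shift h fun a b => π v a * (x b - Φ (s b))]
    have h6 : ∑ g, π v g * Φ (σ h (s g)) = (∑ g, π v g) * (x h - Φ (s h)) +
        ∑ g, π v g * Φ (s g) + ∑ g, π v g * (x g - Φ (s g)) -
        ∑ g, π v g * (x (h * g) - Φ (s (h * g))) := by
      rw [Finset.sum_mul, ← Finset.sum_add_distrib, ← Finset.sum_add_distrib,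
        ← Finset.sum_sub_distrib]
      exact Finset.sum_congr rfl fun g _ => by rw [h5]; ring
    rw [h6, hs v] at h4
    linear_combination h4
  simpa [hk] using h2 (hK hk)

end General

theorem numeric {a : ℕ → ℕ} {N d r : ℕ} (hN : ∀ n, a n ≤ N) (h0 : a 0 = 0) (h1 : 1 ≤ a 1)
    (h : ∀ n, d * a (n + 1) + a 1 ≤ r * a n + a (n + 2)) (hd : 2 ≤ d) : d ^ 2 < 4 * r := by
  by_contra hc
  rw [not_lt] at hc
  have h2 : ∀ n, d * a n < 2 * a (n + 1) := fun n => by
    induction n with
    | zero => rw [h0, mul_zero, zero_add]; omega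
    | succ n ih =>
      have h3 := h n
      have h4 : 4 * r * a n ≤ d ^ 2 * a n := Nat.mul_le_mul_right _ hc
      have h5 : d * (d * a n) ≤ d * (2 * a (n + 1)) := Nat.mul_le_mul_left _ ih.le
      nlinarith
  have h3 : StrictMono a := strictMono_nat_of_lt_succ fun n => by
    have := h2 n
    have := Nat.mul_le_mul_right (a n) hd
    omega
  have := h3.le_apply (x := N + 1)
  have := hN (N + 1)
  omega

section PGroup
variable {p : ℕ} [Fact p.Prime] {G : Type*} [Group G] [Fintype G]
  {V : Type*} [AddCommGroup V] [Module (ZMod p) V] [FiniteDimensional (ZMod p) V]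

omit [Fintype G] in
theorem exists_fixed (hG : IsPGroup p G) (ρ : Representation (ZMod p) G V) [Nontrivial V] :
    ∃ v : V, v ≠ 0 ∧ ∀ g, ρ g v = v := by
  let _ : MulAction G V := MulAction.compHom V ρ
  have : Finite V := Module.finite_of_finite (ZMod p)
  have h1 : p ∣ Nat.card V := by
    rw [Module.natCard_eq_pow_finrank (K := ZMod p), Nat.card_zmod]
    exact dvd_pow_self _ finrank_pos.ne'
  obtain ⟨b, hb, h0⟩ := hG.exists_fixed_point_of_prime_dvd_card_of_fixed_point V h1 (a := 0)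
    fun g => map_zero (ρ g)
  exact ⟨b, h0.symm, hb⟩

omit [Fintype G] in
theorem nakayama (hG : IsPGroup p G) (ρ : Representation (ZMod p) G V)
    {U : Submodule (ZMod p) V} (hU : ∀ g, ∀ u ∈ U, ρ g u ∈ U) (h : U ⊔ Dv ρ ⊤ = ⊤) : U = ⊤ := by
  by_contra hc
  have : Nontrivial U.dualAnnihilator := by
    rw [Submodule.nontrivial_iff_ne_bot]
    rwa [Ne, Submodule.dualAnnihilator_eq_bot_iff]
  obtain ⟨φ, h0, hφ⟩ := exists_fixed (V := U.dualAnnihilator) hG (ρ.dual.subrepresentation U.dualAnnihilator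
    fun g φ hφ => (Submodule.mem_dualAnnihilator _).2 fun w hw =>
      (Submodule.mem_dualAnnihilator _).1 hφ _ (hU _ _ hw))
  apply h0
  ext v
  have h1 : U ⊔ Dv ρ ⊤ ≤ LinearMap.ker φ.1 := by
    refine sup_le (fun w hw => (Submodule.mem_dualAnnihilator _).1 φ.2 _ hw)
      (Dv_le fun g w _ => ?_)
    have h2 : φ.1 (ρ g⁻¹⁻¹ w) = φ.1 w := LinearMap.congr_fun (congrArg Subtype.val (hφ g⁻¹)) w
    rw [inv_inv] at h2
    simp [h2]
  exact h1 (h.ge trivial)

theorem exists_cover (hG : IsPGroup p G) (ρ : Representation (ZMod p) G V) :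
    ∃ f : (Fin (finrank (ZMod p) (V ⧸ Dv ρ ⊤)) → G → ZMod p) →ₗ[ZMod p] V,
      Eqv (pw _ (reg (ZMod p) G)) ρ f ∧ LinearMap.range f = ⊤ ∧
        LinearMap.ker f ≤ Dv (pw _ (reg (ZMod p) G)) ⊤ := by
  classical
  let b := finBasis (ZMod p) (V ⧸ Dv ρ ⊤)
  choose x hx using fun i => (Dv ρ ⊤).mkQ_surjective (b i)
  have h1 : ∀ v, (Dv ρ ⊤).mkQ (lift ρ x v) = ∑ i, (∑ g, v i g) • b i := fun v => by
    simp only [lift_apply, map_sum, map_smul, Finset.sum_smul]
    refine Finset.sum_congr rfl fun i _ => Finset.sum_congr rfl fun g _ => ?_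
    rw [← hx i]
    congr 1
    exact (Submodule.Quotient.eq _).2 (mem_Dv ρ g trivial)
  refine ⟨lift ρ x, lift_eqv ρ x, nakayama hG ρ ?_ ?_, fun v hv => mem_Dv_free ?_⟩
  · rintro g _ ⟨v, rfl⟩
    exact ⟨_, lift_eqv ρ x g v⟩
  · rw [sup_comm, ← Submodule.map_mkQ_eq_top, eq_top_iff, ← b.span_eq, Submodule.span_le]
    rintro _ ⟨i, rfl⟩
    refine ⟨_, ⟨Pi.single i (Pi.single 1 1), rfl⟩, ?_⟩
    rw [h1, Finset.sum_eq_single i (fun j _ hj => by simp [hj]) (by simp)]
    simp
  · have h2 := h1 v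
    rw [LinearMap.mem_ker.1 hv, map_zero] at h2
    exact Fintype.linearIndependent_iff.1 b.linearIndependent _ h2.symm

theorem card_hom_le : Nat.card (G →* Multiplicative (ZMod p)) ≤ p ^ finrank (ZMod p)
    (Dv (reg (ZMod p) G) ⊤ ⧸ Dv (sub (reg (ZMod p) G) _ (Dv_top_inv _)) ⊤) := by
  classical
  set D := Dv (sub (reg (ZMod p) G) _ (Dv_top_inv _)) ⊤ with hD
  have : Finite D.dualAnnihilator := Module.finite_of_finite (ZMod p)
  rw [(Subspace.quotEquivAnnihilator D).finrank_eq]
  refine le_of_le_of_eq ?_ ((Module.natCard_eq_pow_finrank (K := ZMod p)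
    (V := D.dualAnnihilator)).trans (by rw [Nat.card_zmod]))
  let T : (G →* Multiplicative (ZMod p)) → (G → ZMod p) →ₗ[ZMod p] ZMod p := fun χ =>
    ∑ g : G, (χ g).toAdd • LinearMap.proj g
  have hT : ∀ χ f, T χ f = ∑ g, f g * (χ g).toAdd := fun χ f => by simp [T, mul_comm]
  refine Nat.card_le_card_of_injective (fun χ => ⟨(T χ).comp (Submodule.subtype _),
    (Submodule.mem_dualAnnihilator _).2 fun w hw => ?_⟩) fun χ χ' h => ?_
  · refine (Dv_le (U := LinearMap.ker ((T χ).comp (Submodule.subtype _))) fun g w _ => ?_) hw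
    have h1 : T χ (reg (ZMod p) G g w) = T χ w := by
      simp only [hT, reg_apply]
      rw [sum_shift g fun a b => w.1 a * (χ b).toAdd]
      simp [mul_add, Finset.sum_add_distrib, ← Finset.sum_mul, sum_Dv w.2]
    rw [LinearMap.mem_ker, map_sub]
    exact sub_eq_zero.2 h1
  · ext g
    have h1 : T χ _ = T χ' _ := LinearMap.congr_fun (congrArg Subtype.val h)
      ⟨_, mem_Dv (reg (ZMod p) G) (W := ⊤) g (w := Pi.single 1 1) trivial⟩
    simpa [hT, reg_single, Pi.single_apply, sub_mul, Finset.sum_sub_distrib] using h1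

end PGroup

/-- The Golod–Shafarevich inequality. -/
theorem golod {p : ℕ} [Fact p.Prime] {G : Type*} [Group G] [Finite G] (hG : IsPGroup p G)
    {d r : ℕ} (hd : p ^ d ≤ Nat.card (G →* Multiplicative (ZMod p))) (h2 : 2 ≤ d)
    (hr : ∀ S : Finset (G → G → ZMod p),
      (∀ c ∈ S, ∀ g h j, c (g * h) j + c g h = c h j + c g (h * j)) → p ^ r < S.card →
      ∃ c ∈ S, ∃ c' ∈ S, c ≠ c' ∧
        ∃ x : G → ZMod p, ∀ g h, c g h - c' g h = x g + x h - x (g * h)) :
    d ^ 2 < 4 * r := by
  classical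
  have := Fintype.ofFinite G
  have hp := (Fact.out : p.Prime).one_lt
  have hd' := (Nat.pow_le_pow_iff_right hp).1 (hd.trans card_hom_le)
  obtain ⟨π0, e0, s0, k0⟩ :=
    exists_cover hG (sub (reg (ZMod p) G) _ (Dv_top_inv _))
  generalize finrank (ZMod p)
    (Dv (reg (ZMod p) G) ⊤ ⧸ Dv (sub (reg (ZMod p) G) _ (Dv_top_inv _)) ⊤) = d' at *
  obtain ⟨π, hπ, hR, hK⟩ : ∃ π : (Fin d' → G → ZMod p) →ₗ[ZMod p] (G → ZMod p),
      Eqv (pw _ (reg (ZMod p) G)) (reg (ZMod p) G) π ∧ LinearMap.range π = Dv (reg (ZMod p) G) ⊤ ∧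
        LinearMap.ker π ≤ Dv (pw _ (reg (ZMod p) G)) ⊤ :=
    ⟨(Submodule.subtype _).comp π0, fun g v => congrArg Subtype.val (e0 g v), by
      rw [LinearMap.range_comp, s0, Submodule.map_top, Submodule.range_subtype], by
      rwa [LinearMap.ker_comp, Submodule.ker_subtype, Submodule.comap_bot]⟩
  clear π0 e0 s0 k0
  have hinv : ∀ g, LinearMap.ker π ≤ (LinearMap.ker π).comap (pw _ (reg (ZMod p) G) g) :=
    fun g k hk => by
      rw [Submodule.mem_comap, LinearMap.mem_ker, hπ g, LinearMap.mem_ker.1 hk, map_zero]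
  set τ := sub (pw (Fin d') (reg (ZMod p) G)) _ hinv with hτ
  have hr' : finrank (ZMod p) (LinearMap.ker π ⧸ Dv τ ⊤) ≤ r := by
    by_contra hc
    have hs : ∀ v, ∑ g, π v g = 0 := fun v => sum_Dv (hR.le ⟨v, rfl⟩)
    have : ∀ g, ∃ v, π v = Pi.single g 1 - Pi.single 1 1 := fun g => hR.ge (by
      simpa [reg_single] using mem_Dv (reg (ZMod p) G) (W := ⊤) g (w := Pi.single 1 1) trivial)
    choose s h1 using this
    obtain ⟨P, hP⟩ := (LinearMap.ker π).subtype.exists_leftInverse_of_injective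
      (Submodule.ker_subtype _)
    have hP' : ∀ k : LinearMap.ker π, P k = k := fun k => LinearMap.congr_fun hP k
    have : Finite (Dv τ ⊤).dualAnnihilator := Module.finite_of_finite (ZMod p)
    have := Fintype.ofFinite (Dv τ ⊤).dualAnnihilator
    have hφ : ∀ φ : (Dv τ ⊤).dualAnnihilator, ∀ g k, π k = 0 →
        (φ.1.comp P) (pw _ (reg (ZMod p) G) g k) = (φ.1.comp P) k := fun φ g k hk => by
      have h3 := (Submodule.mem_dualAnnihilator _).1 φ.2 _
        (mem_Dv τ (W := ⊤) g (w := ⟨k, hk⟩) trivial)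
      rw [map_sub, sub_eq_zero] at h3
      exact (congrArg φ.1 (hP' (τ g ⟨k, hk⟩))).trans (h3.trans (congrArg φ.1 (hP' ⟨k, hk⟩)).symm)
    let C : (Dv τ ⊤).dualAnnihilator → G → G → ZMod p := fun φ g h =>
      (φ.1.comp P) (s g + pw _ (reg (ZMod p) G) g (s h) - s (g * h))
    have hC : ∀ φ φ', (∃ x : G → ZMod p, ∀ g h, C φ g h - C φ' g h = x g + x h - x (g * h)) →
        φ = φ' := by
      rintro φ φ' ⟨x, hx⟩
      rw [← sub_eq_zero]
      ext k
      have h3 := coc_zero hπ hs hK h1 (hφ (φ - φ')) hx k.2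
      rw [LinearMap.comp_apply, hP'] at h3
      exact h3
    obtain ⟨c, hc1, c', hc2, hne, hx⟩ := hr (Finset.univ.image C) (fun c hc g h j => by
      obtain ⟨φ, -, rfl⟩ := Finset.mem_image.1 hc
      have h3 := hφ φ g (s h + pw _ (reg (ZMod p) G) h (s j) - s (h * j)) (by
        rw [map_sub, map_add, hπ h, h1, h1, h1, map_sub, reg_single, reg_single, mul_one]
        abel)
      simp only [C, ← h3, ← map_add]
      congr 1
      simp only [map_sub, map_add, map_mul, Module.End.mul_apply, mul_assoc]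
      abel) (by
      rw [Finset.card_image_of_injective _ fun φ φ' h => hC φ φ' ⟨0, by simp [h]⟩,
        Finset.card_univ, ← Nat.card_eq_fintype_card,
        Module.natCard_eq_pow_finrank (K := ZMod p), Nat.card_zmod,
        ← (Subspace.quotEquivAnnihilator _).finrank_eq]
      exact Nat.pow_lt_pow_right hp (not_le.1 hc))
    obtain ⟨φ, -, rfl⟩ := Finset.mem_image.1 hc1
    obtain ⟨φ', -, rfl⟩ := Finset.mem_image.1 hc2
    exact hne (congrArg C (hC φ φ' hx))
  obtain ⟨ρ0, e0, s0, -⟩ := exists_cover hG τ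
  generalize finrank (ZMod p) (LinearMap.ker π ⧸ Dv τ ⊤) = r' at *
  obtain ⟨ρ, hρ, hR'⟩ : ∃ ρ : (Fin r' → G → ZMod p) →ₗ[ZMod p] (Fin d' → G → ZMod p),
      Eqv (pw _ (reg (ZMod p) G)) (pw _ (reg (ZMod p) G)) ρ ∧ LinearMap.range ρ = LinearMap.ker π :=
    ⟨(Submodule.subtype _).comp ρ0, fun g v => congrArg Subtype.val (e0 g v), by
      rw [LinearMap.range_comp, s0, Submodule.map_top, Submodule.range_subtype]⟩
  have key : d' ^ 2 < 4 * r' := by
    refine numeric (a := fun n => finrank (ZMod p) ((G → ZMod p) ⧸ (Dv (reg (ZMod p) G))^[n] ⊤))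
      (N := finrank (ZMod p) (G → ZMod p)) (fun n => Submodule.finrank_quotient_le _)
      ?_ ?_ (fun n => ?_) (h2.trans hd')
    · have : Subsingleton ((G → ZMod p) ⧸ (Dv (reg (ZMod p) G))^[0] ⊤) :=
        Submodule.Quotient.subsingleton_iff.2 rfl
      exact finrank_zero_of_subsingleton
    · have : Nontrivial ((G → ZMod p) ⧸ (Dv (reg (ZMod p) G))^[1] ⊤) :=
        Submodule.Quotient.nontrivial_iff.2 fun h => by
          simpa using sum_Dv (F := ZMod p) (G := G) (f := Pi.single 1 1) (h.ge trivial)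
      exact finrank_pos
    · have a1 := finrank_iter_pw d' (reg (ZMod p) G) (n + 1)
      have a2 := finrank_iter_pw r' (reg (ZMod p) G) n
      have a3 := finrank_map_add π ((Dv (pw _ (reg (ZMod p) G)))^[n + 1] ⊤)
      rw [map_iter hπ, Submodule.map_top, hR, ← Function.iterate_succ_apply] at a3
      have a4 := finrank_map_add ρ ((Dv (pw _ (reg (ZMod p) G)))^[n] ⊤)
      have a5 : ((Dv (pw _ (reg (ZMod p) G)))^[n] ⊤).map ρ ≤
          (Dv (pw _ (reg (ZMod p) G)))^[n + 1] ⊤ ⊓ LinearMap.ker π := by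
        refine le_inf ?_ (hR' ▸ LinearMap.map_le_range)
        rw [map_iter hρ, Submodule.map_top, hR', Function.iterate_succ_apply]
        exact (Dv_mono _).iterate n hK
      have a6 := Submodule.finrank_mono a5
      have a7 := Submodule.finrank_mono
        (inf_le_right : (Dv (pw _ (reg (ZMod p) G)))^[n] ⊤ ⊓ LinearMap.ker ρ ≤ _)
      have a8 := π.finrank_range_add_finrank_ker
      have a9 := ρ.finrank_range_add_finrank_ker
      rw [hR'] at a9
      rw [hR] at a8
      rw [Module.finrank_pi_fintype] at a8 a9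
      simp only [Finset.sum_const, Finset.card_univ, Fintype.card_fin, smul_eq_mul] at a8 a9
      have b1 : finrank (ZMod p) ((G → ZMod p) ⧸ (Dv (reg (ZMod p) G))^[1] ⊤) + _ = _ :=
        (Dv (reg (ZMod p) G) ⊤).finrank_quotient_add_finrank
      have b2 : finrank (ZMod p) ((G → ZMod p) ⧸ (Dv (reg (ZMod p) G))^[n + 2] ⊤) + _ = _ :=
        ((Dv (reg (ZMod p) G))^[(n + 1).succ] ⊤).finrank_quotient_add_finrank
      omega
  have := Nat.pow_le_pow_left hd' 2
  omega

/-- The number of characters with values in `ZMod p` is a power of `p`. -/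
theorem card_hom_pow (p : ℕ) [Fact p.Prime] (G : Type*) [Group G] [Finite G] :
    ∃ d, Nat.card (G →* Multiplicative (ZMod p)) = p ^ d := by
  have : Finite (G →* Multiplicative (ZMod p)) := DFunLike.finite _
  refine IsPGroup.iff_card.1 fun χ => ⟨1, ?_⟩
  ext g
  simp

/-- The Golod–Shafarevich inequality, with a finite invariant of cohomology classes. -/
theorem golod_map {p : ℕ} [Fact p.Prime] {G : Type*} [Group G] [Finite G] (hG : IsPGroup p G)
    {d r : ℕ} (hd : p ^ d ≤ Nat.card (G →* Multiplicative (ZMod p))) (h2 : 2 ≤ d)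
    {T : Type*} [Finite T] (hT : Nat.card T ≤ p ^ r) (Θ : (G → G → ZMod p) → T)
    (hΘ : ∀ c c' : G → G → ZMod p,
      (∀ g h j, c (g * h) j + c g h = c h j + c g (h * j)) →
      (∀ g h j, c' (g * h) j + c' g h = c' h j + c' g (h * j)) → Θ c = Θ c' →
      ∃ x : G → ZMod p, ∀ g h, c g h - c' g h = x g + x h - x (g * h)) :
    d ^ 2 < 4 * r := by
  have := Fintype.ofFinite T
  refine golod hG hd h2 fun S hS hc => ?_
  obtain ⟨c, h1, c', h3, h4, h5⟩ := Finset.exists_ne_map_eq_of_card_lt_of_maps_to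
    (s := S) (t := Finset.univ) (f := Θ)
    (by rw [Finset.card_univ, ← Nat.card_eq_fintype_card]; omega) fun _ _ => Finset.mem_univ _
  exact ⟨c, h1, c', h3, h4, hΘ c c' (hS c h1) (hS c' h3) h5⟩

/-- The same, with the invariant defined on the subtype of cocycles. -/
theorem golod_sub {p : ℕ} [Fact p.Prime] {G : Type*} [Group G] [Finite G] (hG : IsPGroup p G)
    {d r : ℕ} (hd : p ^ d ≤ Nat.card (G →* Multiplicative (ZMod p))) (h2 : 2 ≤ d)
    {T : Type*} [Finite T] (hT : Nat.card T ≤ p ^ r)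
    (Θ : {c : G → G → ZMod p // ∀ g h j, c (g * h) j + c g h = c h j + c g (h * j)} → T)
    (hΘ : ∀ c c', Θ c = Θ c' →
      ∃ x : G → ZMod p, ∀ g h, c.1 g h - c'.1 g h = x g + x h - x (g * h)) :
    d ^ 2 < 4 * r := by
  classical
  refine golod_map hG hd h2 hT (fun c => if h : _ then Θ ⟨c, h⟩ else Θ ⟨0, by simp⟩)
    fun c c' hc hc' h => hΘ ⟨c, hc⟩ ⟨c', hc'⟩ ?_
  rwa [dif_pos hc, dif_pos hc'] at h

/-- If the number of cohomology classes is at most `p ^ k` times the number of characters, then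
the number of characters is bounded. -/
theorem golod_rel {p : ℕ} [Fact p.Prime] {G : Type*} [Group G] [Finite G] (hG : IsPGroup p G)
    {k : ℕ} {T : Type*} [Finite T]
    (hT : Nat.card T ≤ p ^ k * Nat.card (G →* Multiplicative (ZMod p)))
    (Θ : {c : G → G → ZMod p // ∀ g h j, c (g * h) j + c g h = c h j + c g (h * j)} → T)
    (hΘ : ∀ c c', Θ c = Θ c' →
      ∃ x : G → ZMod p, ∀ g h, c.1 g h - c'.1 g h = x g + x h - x (g * h)) :
    Nat.card (G →* Multiplicative (ZMod p)) < p ^ (k + 5) := by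
  obtain ⟨d, hd⟩ := card_hom_pow p G
  rw [hd, ← pow_add] at hT
  rw [hd]
  refine Nat.pow_lt_pow_right (Fact.out : p.Prime).one_lt ?_
  by_contra hc
  have := golod_sub hG hd.ge (by omega) hT Θ hΘ
  nlinarith

end Pool.Agent.MP_9b2bac_nt.T.GS
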